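import Pool.Agent.Y248.FD.Stm

/-!
# Restricted estimates: the choice of the splitting scale (helper941)
-/

set_option autoImplicit false

namespace Pool.Agent.Y941.FD

open MeasureTheory Set Metric Complex Filter
open scoped ENNReal RealInnerProductSpace Topology FourierTransform
open Pool.Agent.H789R2.FR (E sg T)
open Pool.Agent.H438R2.RZ (Bump)
open Pool.Agent.Y248.BA (mu Kr Tp)
open Pool.Agent.Y248.FB Pool.Agent.Y248.FC Pool.Agent.Y248.FD

/-! ### Real numbers -/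

/-- the choice of the scale, near the equator, in logarithmic coordinates -/
theorem log_pm {N i β α L U t : ℝ} (hN : 3 ≤ N) (hi : i * N = 1) (hβ0 : 0 ≤ β)
    (hβ : (N - 1) * β ≤ 1) (ht : 0 ≤ t) (htL : t ≤ 2 * L) (hαL : 2 * L ≤ α) :
    (-L - α + 2 * U ≤ -α + i * L + U * (1 + i) + N * t) ∨
    (-(1 - β) * (α - L) + U ≤ -α + i * L + U * (1 + i) + N * t) ∨
    ∃ R : ℝ, t ≤ R ∧ R ≤ α ∧
      ((-α + (-(N - 1) / 2 * R + (-L + R / 2)) + 2 * U ≤ -α + i * L + U * (1 + i) + N * t ∧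
        -α + (R - (1 - β) * L) + U ≤ -α + i * L + U * (1 + i) + N * t) ∨
       (-α + (-(N - 1) / 2 * R) + 2 * U ≤ -α + i * L + U * (1 + i) + N * t ∧
        -α + (R - (1 - β) * (R - L)) + U ≤ -α + i * L + U * (1 + i) + N * t)) := by
  have hi0 : 0 < i := by
    by_contra h
    push Not at h
    nlinarith
  have hi1 : i ≤ 1 / 3 := by nlinarith
  have hL : 0 ≤ L := by linarith
  have hβ2 : β ≤ 1 / 2 := by nlinarith
  have eN : ∀ x : ℝ, i * N * x = x := fun x => by rw [hi, one_mul]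
  have P2 : 0 ≤ L * (i * (1 - (N - 1) * β)) :=
    mul_nonneg hL (mul_nonneg hi0.le (by linarith))
  have P2' : 0 ≤ i * L - β * L + i * β * L := by
    have e := eN (β * L)
    nlinarith
  have hNt : 0 ≤ N * t := mul_nonneg (by linarith) ht
  -- the common estimate
  have common : ∀ R : ℝ, 2 * L ≤ R → ((N - 1) / 2 + β) * R + (1 - β) * L ≤ U →
      β * R + (1 - β) * L ≤ i * L + i * U := by
    intro R hR hU
    have P1 : 0 ≤ (1 - i) * (1 / 2 - β) * (R - 2 * L) :=
      mul_nonneg (mul_nonneg (by linarith) (by linarith)) (by linarith)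
    have P3 : 0 ≤ i * (U - (((N - 1) / 2 + β) * R + (1 - β) * L)) :=
      mul_nonneg hi0.le (by linarith)
    have e1 := eN R
    nlinarith
  rcases le_total U (N / 2 * t + β * L) with h1 | h1
  · left
    have h2 : (1 - i) * U ≤ (1 - i) * (N / 2 * t + β * L) :=
      mul_le_mul_of_nonneg_left h1 (by linarith)
    have h3 : (1 - i) * (N / 2 * t) ≤ N * t := by nlinarith
    have h4 : (1 - i) * (β * L) ≤ L := by
      have h5 : 0 ≤ β * L := mul_nonneg hβ0 hL
      nlinarith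
    nlinarith [mul_nonneg hi0.le hL]
  right
  rcases le_total U ((N + β) * L) with h2 | h2
  · right
    refine ⟨2 * i * (U - β * L), ?_, ?_, Or.inl ⟨?_, ?_⟩⟩
    · have h3 : 0 ≤ i * (U - (N / 2 * t + β * L)) := mul_nonneg hi0.le (by linarith)
      have e1 := eN t
      nlinarith
    · have h3 : 0 ≤ i * ((N + β) * L - U) := mul_nonneg hi0.le (by linarith)
      have e1 := eN L
      nlinarith
    · have h3 : 0 ≤ i * ((N + β) * L - U) := mul_nonneg hi0.le (by linarith)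
      have e1 := eN L
      have e2 := eN U
      have e3 := eN (β * L)
      nlinarith
    · have h3 : 0 ≤ i * ((N + β) * L - U) := mul_nonneg hi0.le (by linarith)
      have e1 := eN L
      nlinarith
  · have ha : 0 < (N - 1) / 2 + β := by linarith
    set R : ℝ := (U - (1 - β) * L) / ((N - 1) / 2 + β) with hR
    have hRe : ((N - 1) / 2 + β) * R = U - (1 - β) * L := by
      rw [hR, ← mul_div_assoc, mul_div_cancel_left₀ _ ha.ne']
    have hRL : 2 * L ≤ R := by
      rw [hR, le_div_iff₀ ha]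
      nlinarith
    rcases le_total R α with h3 | h3
    · right
      have h4 := common R hRL (by linarith)
      refine ⟨R, by linarith, h3, Or.inr ⟨?_, ?_⟩⟩
      · nlinarith
      · nlinarith
    · left
      have h5 : ((N - 1) / 2 + β) * α ≤ ((N - 1) / 2 + β) * R :=
        mul_le_mul_of_nonneg_left h3 ha.le
      have h4 := common α hαL (by linarith)
      nlinarith

/-- the choice of the scale, away from the equator -/
theorem log_hi {N i β α U t : ℝ} (hN : 3 ≤ N) (hi : i * N = 1) (hβ0 : 0 ≤ β)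
    (hβ : (N - 1) * β ≤ 1) (ht : 0 ≤ t) (hα : 0 ≤ α) :
    (-α + 2 * U ≤ -α + U * (1 + i) + N * t) ∨
    (-(1 - β) * α + U ≤ -α + U * (1 + i) + N * t) ∨
    ∃ R : ℝ, t ≤ R ∧ R ≤ α ∧
      (-α + (-(N - 1) / 2 * R) + 2 * U ≤ -α + U * (1 + i) + N * t ∧
        -α + β * R + U ≤ -α + U * (1 + i) + N * t) := by
  have hi0 : 0 < i := by
    by_contra h
    push Not at h
    nlinarith
  have hi1 : i ≤ 1 / 3 := by nlinarith
  have hβ2 : β ≤ 1 / 2 := by nlinarith
  have eN : ∀ x : ℝ, i * N * x = x := fun x => by rw [hi, one_mul]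
  have hNt : 0 ≤ N * t := mul_nonneg (by linarith) ht
  have ha : 0 < (N - 1) / 2 + β := by linarith
  have common : ∀ R : ℝ, 0 ≤ R → ((N - 1) / 2 + β) * R ≤ U → β * R ≤ i * U := by
    intro R hR hU
    have P1 : 0 ≤ (1 - i) * (1 / 2 - β) * R :=
      mul_nonneg (mul_nonneg (by linarith) (by linarith)) hR
    have P3 : 0 ≤ i * (U - (((N - 1) / 2 + β) * R)) := mul_nonneg hi0.le (by linarith)
    have e1 := eN R
    nlinarith
  set R : ℝ := U / ((N - 1) / 2 + β) with hR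
  have hRe : ((N - 1) / 2 + β) * R = U := by
    rw [hR, ← mul_div_assoc, mul_div_cancel_left₀ _ ha.ne']
  rcases le_total R t with h1 | h1
  · left
    have h2 : U ≤ ((N - 1) / 2 + β) * t := by
      rw [← hRe]
      exact mul_le_mul_of_nonneg_left h1 ha.le
    have h3 : (1 - i) * U ≤ (1 - i) * (((N - 1) / 2 + β) * t) :=
      mul_le_mul_of_nonneg_left h2 (by linarith)
    have h4 : (1 - i) * (((N - 1) / 2 + β) * t) ≤ N * t := by
      have h5 : 0 ≤ ((N - 1) / 2 + β) * t := by positivity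
      nlinarith
    nlinarith
  · right
    rcases le_total R α with h3 | h3
    · right
      have h4 := common R (by linarith) hRe.le
      exact ⟨R, h1, h3, by nlinarith, by nlinarith⟩
    · left
      have h5 : ((N - 1) / 2 + β) * α ≤ ((N - 1) / 2 + β) * R :=
        mul_le_mul_of_nonneg_left h3 ha.le
      have h4 := common α hα (by linarith)
      nlinarith


theorem exp_log_neg {l : ℝ} (hl : 0 < l) : ∃ L : ℝ, l = Real.exp (-L) :=
  ⟨-Real.log l, by rw [neg_neg, Real.exp_log hl]⟩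

theorem exp_log' {l : ℝ} (hl : 0 < l) : ∃ L : ℝ, l = Real.exp L :=
  ⟨Real.log l, by rw [Real.exp_log hl]⟩

theorem three_pow (m : ℕ) : (3 : ℝ) ^ (m + 1) = Real.exp (((m : ℝ) + 1) * Real.log 3) := by
  have h := Real.exp_nat_mul (Real.log 3) (m + 1)
  rw [Real.exp_log (by norm_num)] at h
  rw [← h]
  push_cast
  rfl

theorem hT_pm (m : ℕ) (α L U : ℝ) :
    (3 : ℝ) ^ (m + 1) * ((Real.exp α ^ (m + 1) * Real.exp (-L)) ^ (-1 / ((m : ℝ) + 1)) *
      Real.exp U ^ (1 + 1 / ((m : ℝ) + 1))) =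
    Real.exp (-α + 1 / ((m : ℝ) + 1) * L + U * (1 + 1 / ((m : ℝ) + 1)) +
      ((m : ℝ) + 1) * Real.log 3) := by
  have hm : (0 : ℝ) < (m : ℝ) + 1 := by positivity
  rw [three_pow, ← Real.exp_nat_mul, ← Real.exp_add, ← Real.exp_mul, ← Real.exp_mul,
    ← Real.exp_add, ← Real.exp_add]
  congr 1
  push_cast
  field_simp
  ring

theorem hT_hi (m : ℕ) (α U : ℝ) :
    (3 : ℝ) ^ (m + 1) * (1 / Real.exp α * Real.exp U ^ (1 + 1 / ((m : ℝ) + 1))) =
    Real.exp (-α + U * (1 + 1 / ((m : ℝ) + 1)) + ((m : ℝ) + 1) * Real.log 3) := by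
  rw [three_pow, one_div, ← Real.exp_neg, ← Real.exp_mul, ← Real.exp_add, ← Real.exp_add]
  congr 1
  ring

theorem beta_le {m : ℕ} (hm : 2 ≤ m) {β : ℝ} (hβ : β ≤ 1 / (m : ℝ)) :
    ((m : ℝ) + 1 - 1) * β ≤ 1 := by
  have hm0 : (0 : ℝ) < m := by
    have : (2 : ℝ) ≤ m := by exact_mod_cast hm
    linarith
  rw [add_sub_cancel_right]
  rw [le_div_iff₀ hm0] at hβ
  linarith

theorem real_pm {m : ℕ} (hm : 2 ≤ m) {β A l u : ℝ} (hβ0 : 0 ≤ β) (hβ : β ≤ 1 / (m : ℝ))
    (hA : 4 ≤ A) (hl0 : 0 < l) (hl : l ≤ 1 / 8) (hAl : 1 ≤ A * l ^ 2) (hu : 0 < u) :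
    (l / A * u ^ (2 : ℝ) ≤ 3 ^ (m + 1) *
      ((A ^ (m + 1) * l) ^ (-1 / ((m : ℝ) + 1)) * u ^ (1 + 1 / ((m : ℝ) + 1)))) ∨
    ((A * l) ^ (-(1 - β)) * u ≤ 3 ^ (m + 1) *
      ((A ^ (m + 1) * l) ^ (-1 / ((m : ℝ) + 1)) * u ^ (1 + 1 / ((m : ℝ) + 1)))) ∨
    ∃ r : ℝ, 3 ≤ r ∧ r ≤ A ∧
      1 / A * (r ^ (-(m : ℝ) / 2) * min 1 (l * r ^ (1 / 2 : ℝ))) * u ^ (2 : ℝ) ≤ 3 ^ (m + 1) *
        ((A ^ (m + 1) * l) ^ (-1 / ((m : ℝ) + 1)) * u ^ (1 + 1 / ((m : ℝ) + 1))) ∧
      1 / A * (r * (min (1 / (r * l)) l) ^ (1 - β)) * u ≤ 3 ^ (m + 1) *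
        ((A ^ (m + 1) * l) ^ (-1 / ((m : ℝ) + 1)) * u ^ (1 + 1 / ((m : ℝ) + 1))) := by
  have hm2 : (2 : ℝ) ≤ m := by exact_mod_cast hm
  have hβ1 := beta_le hm hβ
  have hβ2 : β ≤ 1 := by
    have : ((m : ℝ) + 1 - 1) * β = m * β := by ring
    nlinarith
  obtain ⟨L, rfl⟩ := exp_log_neg hl0
  obtain ⟨α, rfl⟩ := exp_log' (show 0 < A by linarith)
  obtain ⟨U, rfl⟩ := exp_log' hu
  have h3 : Real.exp (Real.log 3) = 3 := Real.exp_log (by norm_num)
  have ht0 : 0 ≤ Real.log 3 := Real.log_nonneg (by norm_num)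
  have htL : Real.log 3 ≤ L := by
    rw [← Real.exp_le_exp, h3]
    rw [Real.exp_neg] at hl
    have h4 : 8 ≤ Real.exp L := by
      have := (inv_le_comm₀ (Real.exp_pos L) (by norm_num : (0 : ℝ) < 1 / 8)).1 hl
      norm_num at this
      exact this
    linarith
  have hαL : 2 * L ≤ α := by
    have h4 : (1 : ℝ) ≤ Real.exp (α - 2 * L) := by
      refine hAl.trans (le_of_eq ?_)
      rw [← Real.exp_nat_mul, ← Real.exp_add]
      congr 1
      push_cast
      ring
    rw [← Real.exp_zero, Real.exp_le_exp] at h4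
    linarith
  rw [hT_pm]
  have e1 : Real.exp (-L) / Real.exp α * Real.exp U ^ (2 : ℝ) = Real.exp (-L - α + 2 * U) := by
    rw [← Real.exp_mul, ← Real.exp_sub, ← Real.exp_add]
    congr 1
    ring
  have e2 : (Real.exp α * Real.exp (-L)) ^ (-(1 - β)) * Real.exp U =
      Real.exp (-(1 - β) * (α - L) + U) := by
    rw [← Real.exp_add, ← Real.exp_mul, ← Real.exp_add]
    congr 1
    ring
  rw [e1, e2]
  rcases log_pm (N := (m : ℝ) + 1) (i := 1 / ((m : ℝ) + 1)) (β := β) (α := α) (L := L) (U := U)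
    (t := Real.log 3) (by linarith) (by field_simp) hβ0 hβ1 ht0 (by linarith) hαL
    with h | h | ⟨R, hR1, hR2, h⟩
  · exact Or.inl (Real.exp_le_exp.2 h)
  · exact Or.inr (Or.inl (Real.exp_le_exp.2 h))
  · refine Or.inr (Or.inr ⟨Real.exp R, ?_, Real.exp_le_exp.2 hR2, ?_⟩)
    · rw [← h3]
      exact Real.exp_le_exp.2 hR1
    · have hmin0 : 0 ≤ min (1 / (Real.exp R * Real.exp (-L))) (Real.exp (-L)) :=
        le_min (by positivity) (by positivity)
      rcases h with ⟨h4, h5⟩ | ⟨h4, h5⟩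
      · constructor
        · calc 1 / Real.exp α * (Real.exp R ^ (-(m : ℝ) / 2) *
                min 1 (Real.exp (-L) * Real.exp R ^ (1 / 2 : ℝ))) * Real.exp U ^ (2 : ℝ)
              ≤ 1 / Real.exp α * (Real.exp R ^ (-(m : ℝ) / 2) *
                (Real.exp (-L) * Real.exp R ^ (1 / 2 : ℝ))) * Real.exp U ^ (2 : ℝ) := by
                gcongr
                exact min_le_right _ _
            _ = Real.exp (-α + (-((m : ℝ) + 1 - 1) / 2 * R + (-L + R / 2)) + 2 * U) := by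
                rw [one_div, ← Real.exp_neg, ← Real.exp_mul, ← Real.exp_mul, ← Real.exp_mul,
                  ← Real.exp_add, ← Real.exp_add, ← Real.exp_add, ← Real.exp_add]
                congr 1
                ring
            _ ≤ _ := Real.exp_le_exp.2 h4
        · calc 1 / Real.exp α * (Real.exp R *
                (min (1 / (Real.exp R * Real.exp (-L))) (Real.exp (-L))) ^ (1 - β)) * Real.exp U
              ≤ 1 / Real.exp α * (Real.exp R * (Real.exp (-L)) ^ (1 - β)) * Real.exp U := by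
                have := Real.rpow_le_rpow hmin0 (min_le_right (1 / (Real.exp R * Real.exp (-L)))
                  (Real.exp (-L))) (show 0 ≤ 1 - β by linarith)
                gcongr
            _ = Real.exp (-α + (R - (1 - β) * L) + U) := by
                rw [one_div, ← Real.exp_neg, ← Real.exp_mul,
                  ← Real.exp_add, ← Real.exp_add, ← Real.exp_add]
                congr 1
                ring
            _ ≤ _ := Real.exp_le_exp.2 h5
      · constructor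
        · calc 1 / Real.exp α * (Real.exp R ^ (-(m : ℝ) / 2) *
                min 1 (Real.exp (-L) * Real.exp R ^ (1 / 2 : ℝ))) * Real.exp U ^ (2 : ℝ)
              ≤ 1 / Real.exp α * (Real.exp R ^ (-(m : ℝ) / 2) * 1) * Real.exp U ^ (2 : ℝ) := by
                gcongr
                exact min_le_left _ _
            _ = Real.exp (-α + (-((m : ℝ) + 1 - 1) / 2 * R) + 2 * U) := by
                rw [mul_one, one_div, ← Real.exp_neg, ← Real.exp_mul, ← Real.exp_mul,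
                  ← Real.exp_add, ← Real.exp_add]
                congr 1
                ring
            _ ≤ _ := Real.exp_le_exp.2 h4
        · calc 1 / Real.exp α * (Real.exp R *
                (min (1 / (Real.exp R * Real.exp (-L))) (Real.exp (-L))) ^ (1 - β)) * Real.exp U
              ≤ 1 / Real.exp α * (Real.exp R * (1 / (Real.exp R * Real.exp (-L))) ^ (1 - β)) *
                Real.exp U := by
                have := Real.rpow_le_rpow hmin0 (min_le_left (1 / (Real.exp R * Real.exp (-L)))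
                  (Real.exp (-L))) (show 0 ≤ 1 - β by linarith)
                gcongr
            _ = Real.exp (-α + (R - (1 - β) * (R - L)) + U) := by
                rw [one_div, one_div, ← Real.exp_add, ← Real.exp_neg, ← Real.exp_neg,
                  ← Real.exp_mul, ← Real.exp_add, ← Real.exp_add, ← Real.exp_add]
                congr 1
                ring
            _ ≤ _ := Real.exp_le_exp.2 h5

theorem real_hi {m : ℕ} (hm : 2 ≤ m) {β A u : ℝ} (hβ0 : 0 ≤ β) (hβ : β ≤ 1 / (m : ℝ))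
    (hA : 4 ≤ A) (hu : 0 < u) :
    (1 / A * u ^ (2 : ℝ) ≤ 3 ^ (m + 1) * (1 / A * u ^ (1 + 1 / ((m : ℝ) + 1)))) ∨
    (A ^ (-(1 - β)) * u ≤ 3 ^ (m + 1) * (1 / A * u ^ (1 + 1 / ((m : ℝ) + 1)))) ∨
    ∃ r : ℝ, 3 ≤ r ∧ r ≤ A ∧
      1 / A * r ^ (-(m : ℝ) / 2) * u ^ (2 : ℝ) ≤
        3 ^ (m + 1) * (1 / A * u ^ (1 + 1 / ((m : ℝ) + 1))) ∧
      1 / A * r ^ β * u ≤ 3 ^ (m + 1) * (1 / A * u ^ (1 + 1 / ((m : ℝ) + 1))) := by
  have hm2 : (2 : ℝ) ≤ m := by exact_mod_cast hm
  have hβ1 := beta_le hm hβ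
  obtain ⟨α, rfl⟩ := exp_log' (show 0 < A by linarith)
  obtain ⟨U, rfl⟩ := exp_log' hu
  have h3 : Real.exp (Real.log 3) = 3 := Real.exp_log (by norm_num)
  have ht0 : 0 ≤ Real.log 3 := Real.log_nonneg (by norm_num)
  have hα : 0 ≤ α := by
    have : (1 : ℝ) ≤ Real.exp α := by linarith
    rwa [← Real.exp_zero, Real.exp_le_exp] at this
  rw [hT_hi]
  have e1 : 1 / Real.exp α * Real.exp U ^ (2 : ℝ) = Real.exp (-α + 2 * U) := by
    rw [one_div, ← Real.exp_neg, ← Real.exp_mul, ← Real.exp_add]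
    congr 1
    ring
  have e2 : Real.exp α ^ (-(1 - β)) * Real.exp U = Real.exp (-(1 - β) * α + U) := by
    rw [← Real.exp_mul, ← Real.exp_add]
    congr 1
    ring
  rw [e1, e2]
  rcases log_hi (N := (m : ℝ) + 1) (i := 1 / ((m : ℝ) + 1)) (β := β) (α := α) (U := U)
    (t := Real.log 3) (by linarith) (by field_simp) hβ0 hβ1 ht0 hα
    with h | h | ⟨R, hR1, hR2, h4, h5⟩
  · exact Or.inl (Real.exp_le_exp.2 h)
  · exact Or.inr (Or.inl (Real.exp_le_exp.2 h))
  · refine Or.inr (Or.inr ⟨Real.exp R, ?_, Real.exp_le_exp.2 hR2, ?_, ?_⟩)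
    · rw [← h3]
      exact Real.exp_le_exp.2 hR1
    · refine le_trans (le_of_eq ?_) (Real.exp_le_exp.2 h4)
      rw [one_div, ← Real.exp_neg, ← Real.exp_mul, ← Real.exp_mul, ← Real.exp_add,
        ← Real.exp_add]
      congr 1
      ring
    · refine le_trans (le_of_eq ?_) (Real.exp_le_exp.2 h5)
      rw [one_div, ← Real.exp_neg, ← Real.exp_mul, ← Real.exp_add, ← Real.exp_add]
      congr 1
      ring

/-! ### Energies -/

theorem lint_le {n : ℕ} {μ : Measure (E n)} {g : E n → ℂ} {S : Set (E n)}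
    (hS : MeasurableSet S) (h1 : ∀ x, ‖g x‖ ≤ 1) (h2 : ∀ x, x ∉ S → g x = 0) {p : ℝ}
    (hp : 0 < p) : ∫⁻ x, ‖g x‖ₑ ^ p ∂μ ≤ μ S := by
  calc ∫⁻ x, ‖g x‖ₑ ^ p ∂μ ≤ ∫⁻ x, S.indicator (fun _ => (1 : ℝ≥0∞)) x ∂μ := by
        apply lintegral_mono
        intro x
        by_cases hx : x ∈ S
        · rw [indicator_of_mem hx]
          apply ENNReal.rpow_le_one _ hp.le
          rw [← ofReal_norm, ← ENNReal.ofReal_one]
          exact ENNReal.ofReal_le_ofReal (h1 x)
        · rw [indicator_of_notMem hx]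
          simp only [h2 x hx, enorm_zero]
          rw [ENNReal.zero_rpow_of_pos hp]
    _ = μ S := by
        rw [lintegral_indicator_const hS, one_mul]

theorem comb1 {W I : ℝ≥0∞} {c u : ℝ} (hc : 0 ≤ c) (hu : 0 ≤ u)
    (h : W ≤ ENNReal.ofReal c * I ^ (2 : ℝ)) (hI : I ≤ ENNReal.ofReal u) :
    W ≤ ENNReal.ofReal (c * u ^ (2 : ℝ)) := by
  rw [ENNReal.ofReal_mul hc, ← ENNReal.ofReal_rpow_of_nonneg hu (by norm_num)]
  exact h.trans (mul_le_mul' le_rfl (ENNReal.rpow_le_rpow hI (by norm_num)))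

theorem comb2 {W I : ℝ≥0∞} {c u : ℝ} (hc : 0 ≤ c)
    (h : W ≤ ENNReal.ofReal c * I) (hI : I ≤ ENNReal.ofReal u) :
    W ≤ ENNReal.ofReal (c * u) := by
  rw [ENNReal.ofReal_mul hc]
  exact h.trans (mul_le_mul' le_rfl hI)

theorem comb3 {W I J : ℝ≥0∞} {c c' u : ℝ} (hc : 0 ≤ c) (hc' : 0 ≤ c') (hu : 0 ≤ u)
    (h : W ≤ ENNReal.ofReal c * I ^ (2 : ℝ) + ENNReal.ofReal c' * J) (hI : I ≤ ENNReal.ofReal u)
    (hJ : J ≤ ENNReal.ofReal u) : W ≤ ENNReal.ofReal (c * u ^ (2 : ℝ) + c' * u) := by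
  rw [ENNReal.ofReal_add (by positivity) (by positivity)]
  exact h.trans (add_le_add (comb1 hc hu le_rfl hI) (comb2 hc' le_rfl hJ))

theorem target {W : ℝ≥0∞} {C X u e x : ℝ} (hu : 0 ≤ u) (he : 0 ≤ e) (hC : 0 ≤ C) (hX : 0 ≤ X)
    (h : W ≤ ENNReal.ofReal x) (hx : x ≤ C * X * u ^ e) :
    W ≤ ENNReal.ofReal (C * X) * (ENNReal.ofReal u) ^ e := by
  rw [ENNReal.ofReal_rpow_of_nonneg hu he, ← ENNReal.ofReal_mul (by positivity)]
  exact h.trans (ENNReal.ofReal_le_ofReal hx)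

theorem t_rt (m : ℕ) (hm : 2 ≤ m) : S_BS m → S_SPL m → S_SPH m → S_RT m := by
  intro hBS hSPL hSPH ψ θ hψ hθ β K₀ hβ0 hβ hK
  have hm2 : (2 : ℝ) ≤ m := by exact_mod_cast hm
  have hβ1 : β ≤ 1 := by
    refine hβ.trans ?_
    rw [div_le_one (by linarith)]
    linarith
  obtain ⟨C1, hC1, hBS⟩ := hBS ψ θ hψ hθ β K₀ hβ0 hβ1 hK
  obtain ⟨C2, hC2, hSPL⟩ := hSPL ψ θ hψ hθ β K₀ hβ0 hβ1 hK
  obtain ⟨C3, hC3, hSPH⟩ : ∃ C : ℝ, 0 < C ∧ ((∀ s, s ≤ 1 → θ s = 1) →
      ∀ ν : Measure (E 1), LD β K₀ ν → ∀ A : ℝ, 4 ≤ A →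
      ∀ r : ℝ, 3 ≤ r → r ≤ A → ∀ g : E (m + 1) → ℂ, BB g →
      En (hi m ψ θ A) g (cyl m ν) ≤
        ENNReal.ofReal (C / A * r ^ (-(m : ℝ) / 2)) * (∫⁻ x, ‖g x‖ₑ ∂(cyl m ν)) ^ (2 : ℝ) +
        ENNReal.ofReal (C / A * r ^ β) * ∫⁻ x, ‖g x‖ₑ ^ (2 : ℝ) ∂(cyl m ν)) := by
    by_cases h : ∀ s, s ≤ 1 → θ s = 1
    · obtain ⟨C, hC, h'⟩ := hSPH ψ θ hψ hθ h β K₀ hβ0 hβ1 hK
      exact ⟨C, hC, fun _ => h'⟩
    · exact ⟨1, one_pos, fun h' => absurd h' h⟩
  have hK3 : (0 : ℝ) < 3 ^ (m + 1) := by positivity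
  refine ⟨(C1 + 2 * C2 + 2 * C3) * 3 ^ (m + 1), by positivity, ?_⟩
  intro ν hν g hg S hS hSf hg1 hg0
  set u : ℝ := (cyl m ν S).toReal with hudef
  have hu : cyl m ν S = ENNReal.ofReal u := (ENNReal.ofReal_toReal hSf).symm
  have hu0 : 0 ≤ u := ENNReal.toReal_nonneg
  have hI1 : ∫⁻ x, ‖g x‖ₑ ∂(cyl m ν) ≤ ENNReal.ofReal u := by
    rw [← hu]
    have := lint_le (μ := cyl m ν) hS hg1 hg0 (p := 1) one_pos
    simpa using this
  have hI2 : ∫⁻ x, ‖g x‖ₑ ^ (2 : ℝ) ∂(cyl m ν) ≤ ENNReal.ofReal u := by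
    rw [← hu]
    exact lint_le (μ := cyl m ν) hS hg1 hg0 two_pos
  have he : (0 : ℝ) < 1 + 1 / ((m : ℝ) + 1) := by positivity
  rw [hu]
  obtain ⟨hBS1, hBS2⟩ := hBS ν hν
  -- enlarging the constant
  have big : ∀ {c x Y : ℝ}, 0 ≤ c → c ≤ C1 + 2 * C2 + 2 * C3 → 0 ≤ Y → x ≤ 3 ^ (m + 1) * Y →
      c * x ≤ (C1 + 2 * C2 + 2 * C3) * 3 ^ (m + 1) * Y := by
    intro c x Y hc hcC hY hx
    calc c * x ≤ c * (3 ^ (m + 1) * Y) := mul_le_mul_of_nonneg_left hx hc
      _ ≤ (C1 + 2 * C2 + 2 * C3) * (3 ^ (m + 1) * Y) :=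
          mul_le_mul_of_nonneg_right hcC (by positivity)
      _ = _ := by ring
  constructor
  · intro A l hAdm
    obtain ⟨hA, hl0, hl, hAl, _⟩ := id hAdm
    obtain ⟨ha, hb⟩ := hBS1 A l hAdm g hg
    have hc := hSPL ν hν A l hAdm
    have hA0 : 0 < A := by linarith
    have hX : 0 ≤ (A ^ (m + 1) * l) ^ (-1 / ((m : ℝ) + 1)) := by positivity
    have ha' := comb1 (by positivity) hu0 ha hI1
    rcases hu0.lt_or_eq with hup | hu00
    · have hY : 0 ≤ (A ^ (m + 1) * l) ^ (-1 / ((m : ℝ) + 1)) * u ^ (1 + 1 / ((m : ℝ) + 1)) := by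
        positivity
      rcases real_pm hm hβ0 hβ hA hl0 hl hAl hup with h | h | ⟨r, hr3, hrA, h, h'⟩
      · refine target hu0 he.le (by positivity) hX ha' ?_
        have := big hC1.le (by linarith) hY h
        linarith
      · refine target hu0 he.le (by positivity) hX (comb2 (by positivity) hb hI2) ?_
        have := big hC1.le (by linarith) hY h
        linarith
      · have hr0 : 0 < r := by linarith
        have hmin : 0 ≤ min (1 / (r * l)) l := le_min (by positivity) hl0.le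
        have hmin1 : 0 ≤ min 1 (l * r ^ (1 / 2 : ℝ)) := le_min zero_le_one (by positivity)
        refine target hu0 he.le (by positivity) hX
          (comb3 (by positivity) (by positivity) hu0 (hc r hr3 hrA g hg) hI1 hI2) ?_
        have h5 := big (c := C2) hC2.le (by linarith) hY h
        have h6 := big (c := C2) hC2.le (by linarith) hY h'
        have h7 := add_le_add (mul_le_mul_of_nonneg_left h hC2.le)
          (mul_le_mul_of_nonneg_left h' hC2.le)
        have h8 : 2 * C2 * (3 ^ (m + 1) * ((A ^ (m + 1) * l) ^ (-1 / ((m : ℝ) + 1)) *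
            u ^ (1 + 1 / ((m : ℝ) + 1)))) ≤ (C1 + 2 * C2 + 2 * C3) *
            (3 ^ (m + 1) * ((A ^ (m + 1) * l) ^ (-1 / ((m : ℝ) + 1)) *
            u ^ (1 + 1 / ((m : ℝ) + 1)))) :=
          mul_le_mul_of_nonneg_right (by linarith) (by positivity)
        have e1 : C2 / A * (r ^ (-(m : ℝ) / 2) * min 1 (l * r ^ (1 / 2 : ℝ))) * u ^ (2 : ℝ) =
            C2 * (1 / A * (r ^ (-(m : ℝ) / 2) * min 1 (l * r ^ (1 / 2 : ℝ))) * u ^ (2 : ℝ)) := by
          ring
        have e2 : C2 / A * (r * (min (1 / (r * l)) l) ^ (1 - β)) * u =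
            C2 * (1 / A * (r * (min (1 / (r * l)) l) ^ (1 - β)) * u) := by ring
        rw [e1, e2]
        refine h7.trans ?_
        refine le_trans (le_of_eq ?_) (h8.trans (le_of_eq ?_))
        · ring
        · ring
    · rw [← hu00]
      rw [← hu00, Real.zero_rpow (by norm_num), mul_zero, ENNReal.ofReal_zero] at ha'
      exact ha'.trans zero_le
  · intro hθ1 A hA
    obtain ⟨ha, hb⟩ := hBS2 hθ1 A hA g hg
    have hc := hSPH hθ1 ν hν A hA
    have hA0 : 0 < A := by linarith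
    have hX : 0 ≤ 1 / A := by positivity
    have ha' := comb1 (by positivity) hu0 ha hI1
    rw [div_eq_mul_one_div]
    rcases hu0.lt_or_eq with hup | hu00
    · have hY : 0 ≤ 1 / A * u ^ (1 + 1 / ((m : ℝ) + 1)) := by positivity
      rcases real_hi hm hβ0 hβ hA hup with h | h | ⟨r, hr3, hrA, h, h'⟩
      · refine target hu0 he.le (by positivity) hX ha' ?_
        have := big hC1.le (by linarith) hY h
        have e1 : C1 / A * u ^ (2 : ℝ) = C1 * (1 / A * u ^ (2 : ℝ)) := by ring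
        rw [e1]
        linarith
      · refine target hu0 he.le (by positivity) hX (comb2 (by positivity) hb hI2) ?_
        have := big hC1.le (by linarith) hY h
        linarith
      · have hr0 : 0 < r := by linarith
        refine target hu0 he.le (by positivity) hX
          (comb3 (by positivity) (by positivity) hu0 (hc r hr3 hrA g hg) hI1 hI2) ?_
        have h7 := add_le_add (mul_le_mul_of_nonneg_left h hC3.le)
          (mul_le_mul_of_nonneg_left h' hC3.le)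
        have h8 : 2 * C3 * (3 ^ (m + 1) * (1 / A * u ^ (1 + 1 / ((m : ℝ) + 1)))) ≤
            (C1 + 2 * C2 + 2 * C3) * (3 ^ (m + 1) * (1 / A * u ^ (1 + 1 / ((m : ℝ) + 1)))) :=
          mul_le_mul_of_nonneg_right (by linarith) (by positivity)
        have e1 : C3 / A * r ^ (-(m : ℝ) / 2) * u ^ (2 : ℝ) =
            C3 * (1 / A * r ^ (-(m : ℝ) / 2) * u ^ (2 : ℝ)) := by
          ring
        have e2 : C3 / A * r ^ β * u = C3 * (1 / A * r ^ β * u) := by ring
        rw [e1, e2]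
        refine h7.trans ?_
        refine le_trans (le_of_eq ?_) (h8.trans (le_of_eq ?_))
        · ring
        · ring
    · rw [← hu00]
      rw [← hu00, Real.zero_rpow (by norm_num), mul_zero, ENNReal.ofReal_zero] at ha'
      exact ha'.trans zero_le

end Pool.Agent.Y941.FD
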